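import Pool.Agent.H58.JU.Targets

/-!
MP_6a7a6f_gt, row KPO of the board jun_modules: a positive kernel.
-/

namespace Pool.Agent.H13.JU

open Pool.Agent.H58.JU Pool.Agent.H59 Pool.Agent.H48.FR Pool.Agent.H58.FL
open scoped RealInnerProductSpace Quaternion

section

variable {𝕜 : Type} [NormedDivisionRing 𝕜] [StarRing 𝕜] [NormedAlgebra ℝ 𝕜] [PF 𝕜]

lemma kpo_term (a a' b b' : 𝕜) :
    re (a * star a' * star (b * star b')) = re ((star b * a) * star (star b' * a')) := by
  rw [star_mul, star_star, star_mul, star_star, ← mul_assoc, re_mul_comm]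
  simp only [mul_assoc]

lemma kpo_pair {m n : ℕ} (a a' : Fin m → 𝕜) (b b' : Fin n → 𝕜) :
    re (hp a a' * star (hp b b')) =
      ∑ k, ∑ l, re ((star (b l) * a k) * star (star (b' l) * a' k)) := by
  unfold hp
  rw [star_sum, Finset.sum_mul_sum, re_sum]
  refine Finset.sum_congr rfl fun k _ => ?_
  rw [re_sum]
  refine Finset.sum_congr rfl fun l _ => ?_
  exact kpo_term _ _ _ _

lemma kpo_sq {N : ℕ} (t : Fin N → ℝ) (X : Fin N → 𝕜) :
    0 ≤ ∑ i, ∑ j, t i * t j * re (X i * star (X j)) := by
  have h : ∑ i, ∑ j, t i * t j * re (X i * star (X j)) =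
      re ((∑ i, t i • X i) * star (∑ i, t i • X i)) := by
    rw [star_sum, Finset.sum_mul_sum, re_sum]
    refine Finset.sum_congr rfl fun i _ => ?_
    rw [re_sum]
    refine Finset.sum_congr rfl fun j _ => ?_
    rw [star_smul', smul_mul_assoc, mul_smul_comm, re_smul, re_smul]
    ring
  rw [h, re_self_mul_star]
  exact sq_nonneg _

end

theorem pf_KPO : T_KPO := by
  intro 𝕜 _ _ _ _ m n N a b t
  have h : ∑ i, ∑ j, t i * t j * re (hp (a i) (a j) * star (hp (b i) (b j))) =
      ∑ k, ∑ l, ∑ i, ∑ j, t i * t j *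
        re ((star (b i l) * a i k) * star (star (b j l) * a j k)) := by
    calc ∑ i, ∑ j, t i * t j * re (hp (a i) (a j) * star (hp (b i) (b j)))
        = ∑ i, ∑ j, ∑ k, ∑ l, t i * t j *
          re ((star (b i l) * a i k) * star (star (b j l) * a j k)) := by
          refine Finset.sum_congr rfl fun i _ => Finset.sum_congr rfl fun j _ => ?_
          rw [kpo_pair, Finset.mul_sum]
          refine Finset.sum_congr rfl fun k _ => ?_
          rw [Finset.mul_sum]
      _ = ∑ i, ∑ k, ∑ j, ∑ l, t i * t j *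
          re ((star (b i l) * a i k) * star (star (b j l) * a j k)) :=
          Finset.sum_congr rfl fun i _ => Finset.sum_comm
      _ = ∑ k, ∑ i, ∑ j, ∑ l, t i * t j *
          re ((star (b i l) * a i k) * star (star (b j l) * a j k)) := Finset.sum_comm
      _ = ∑ k, ∑ i, ∑ l, ∑ j, t i * t j *
          re ((star (b i l) * a i k) * star (star (b j l) * a j k)) :=
          Finset.sum_congr rfl fun k _ => Finset.sum_congr rfl fun i _ => Finset.sum_comm
      _ = ∑ k, ∑ l, ∑ i, ∑ j, t i * t j *
          re ((star (b i l) * a i k) * star (star (b j l) * a j k)) :=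
          Finset.sum_congr rfl fun k _ => Finset.sum_comm
  rw [h]
  exact Finset.sum_nonneg fun k _ => Finset.sum_nonneg fun l _ =>
    kpo_sq t fun i => star (b i l) * a i k

end Pool.Agent.H13.JU
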